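import Pool.Agent.R135.SEPFinal

/-!
# MP_ee9925_co, Q1: the h*-difference of symmetric edge polytopes under edge deletion

For every `2`-connected graph `G`, every edge `ij` and every lattice triangulation `Γ` of the
region of `∂P_{G∖ij}` visible from `e_i - e_j`,
`h*_{P_G}(t) - h*_{P_{G∖ij}}(t) = 2t ∑_s q_s(t)`, and each `q_s` has nonnegative coefficients and
each `2t q_s(t)` is palindromic with center `d/2`.

The definitions (polytope, `h*`, visible region, triangulation, lattice distance, the polynomials
`h_Δ`, `D`, `q`) are in `Pool/Agent/R135/SEPDefs.lean`.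

Idea of proof. The gauge `ν_G` of `P_G` at an integer vector `x` is the maximum of `⟨f, x⟩` over
integer functions `f` with `f a - f b ≤ 1` on edges. Adding `e = e_i - e_j` raises the gauge
`ν` of `P_{G∖ij}` at `x` by the maximal slope `⟨f, e⟩` of an optimal `f` (an exchange argument).
The cone over the facets of `Γ` at lattice distance `≥ a` is the set of vectors with slope
`≥ a + 1`, and `x ↦ x + e` maps the vectors with right slope `a + 1` to those with left slope
`a + 1`; a half-open decomposition in the direction `e` (perturbed) computes both, which gives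
nonnegativity and palindromicity of `q_a`. Comparing `ν_G` and `ν` region by region gives the
identity. Unimodularity of the simplices is automatic.
-/

set_option autoImplicit false
open Finset
open scoped Pointwise

namespace Pool.Agent.Results.MP_ee9925_co.PalindromicDecomposition

open Pool.Agent.R135.SEP

/-- **Q1 of MP_ee9925_co.** -/
theorem result {n : ℕ} (G : SimpleGraph (Fin n)) (hG : TwoConnected G) (i j : Fin n)
    (hij : G.Adj i j) (Γ : Finset (Finset (Fin n → ℤ)))
    (hΓ : IsTriangulation Γ (visibleRegion (edgePolytope (G.deleteEdges {s(i, j)}))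
      (Pi.single i 1 - Pi.single j 1))) :
    hStar (n - 1) (edgePolytope G) - hStar (n - 1) (edgePolytope (G.deleteEdges {s(i, j)})) =
      ((2 * Polynomial.X *
        ∑ a ∈ Γ.image (fun σ => latticeDistance σ (Pi.single i 1 - Pi.single j 1)),
          qPolynomial (n - 1) Γ (Pi.single i 1 - Pi.single j 1) a : Polynomial ℤ) :
        PowerSeries ℤ) ∧
    ∀ a ∈ Γ.image (fun σ => latticeDistance σ (Pi.single i 1 - Pi.single j 1)),
      HasNonnegCoeffs (qPolynomial (n - 1) Γ (Pi.single i 1 - Pi.single j 1) a) ∧
      IsPalindromic (n - 1)
        (2 * Polynomial.X * qPolynomial (n - 1) Γ (Pi.single i 1 - Pi.single j 1) a) := by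
  have hn : 2 ≤ n := by have := hG.1; omega
  rw [← toR_ev] at hΓ
  exact decomposition_of_connected G hn i j hij (hG.deleteEdges hij) Γ hΓ

end Pool.Agent.Results.MP_ee9925_co.PalindromicDecomposition
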